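import Mathlib

/-!
# Multicolour threshold-2 bootstrap dynamics on `ℤ²` (MP_3d955a)
-/

open MeasureTheory ProbabilityTheory Filter Topology
open scoped ENNReal

namespace Q294.Multi

/-- The four nearest neighbours of `x` in `ℤ²`. -/
def nbrs (x : ℤ × ℤ) : Finset (ℤ × ℤ) :=
  {(x.1 + 1, x.2), (x.1 - 1, x.2), (x.1, x.2 + 1), (x.1, x.2 - 1)}

/-- `N_j(x)`: the number of neighbours of `x` in state `j`. -/
def count (ξ : ℤ × ℤ → ℕ) (x : ℤ × ℤ) (j : ℕ) : ℕ := ((nbrs x).filter fun y => ξ y = j).card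

/-- One step of the dynamics: a site in state `i < κ` moves to state `i + 1` if at least two of its
neighbours are in state `i + 1`. -/
def step (κ : ℕ) (ξ : ℤ × ℤ → ℕ) : ℤ × ℤ → ℕ :=
  fun x => if ξ x < κ ∧ 2 ≤ count ξ x (ξ x + 1) then ξ x + 1 else ξ x

/-- The configuration at time `t` started from `ξ`. -/
def evol (κ : ℕ) (ξ : ℤ × ℤ → ℕ) (t : ℕ) : ℤ × ℤ → ℕ := (step κ)^[t] ξ

/-- `p` is a parameter vector `(p_0, …, p_κ)`: all entries are positive (and `p i = 0` for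
`i > κ`). -/
structure IsParam (κ : ℕ) (p : PMF ℕ) : Prop where
  pos : ∀ i ≤ κ, p i ≠ 0
  zero : ∀ i, κ < i → p i = 0

/-- The product measure of the initial configuration. -/
noncomputable def law (p : PMF ℕ) : Measure (ℤ × ℤ → ℕ) :=
  Measure.infinitePi fun _ : ℤ × ℤ => p.toMeasure

instance (p : PMF ℕ) : IsProbabilityMeasure (law p) := by unfold law; infer_instance

/-- The statement of Q1 for the given `κ`. -/
def Q1 (κ : ℕ) : Prop :=
  ∃ γ : ℕ → ℝ, (∀ i, 2 ≤ i → i ≤ κ → 0 < γ i) ∧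
    ∀ p : ℕ → PMF ℕ, (∀ n, IsParam κ (p n)) →
      Tendsto (fun n => (p n 1).toReal) atTop (𝓝 0) →
      (∀ i, 2 ≤ i → i ≤ κ →
        Tendsto (fun n => (p n i).toReal / (p n (i - 1)).toReal ^ γ i) atTop (𝓝 0)) →
      Tendsto (fun n => law (p n) {ξ | ∃ t, evol κ ξ t 0 = κ}) atTop (𝓝 1)

end Q294.Multi
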