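import Pool.Agent.Q294.Multi.Defs

open MeasureTheory ProbabilityTheory Filter Topology
open scoped ENNReal

namespace Q294.Multi

/-- the corner pattern: `c` is in state 0 and three of its neighbours are in state 2 -/
def Corner (ξ : ℤ × ℤ → ℕ) (c : ℤ × ℤ) : Prop :=
  ξ c = 0 ∧ ξ (c.1 + 1, c.2) = 2 ∧ ξ (c.1 - 1, c.2) = 2 ∧ ξ (c.1, c.2 + 1) = 2

/-- all four corners of the square `[-n, n]²` carry the pattern -/
def Guarded (ξ : ℤ × ℤ → ℕ) (n : ℤ) : Prop :=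
  Corner ξ (n, n) ∧ Corner ξ (n, -n) ∧ Corner ξ (-n, n) ∧ Corner ξ (-n, -n)

lemma step_ge (κ : ℕ) (ξ : ℤ × ℤ → ℕ) (x : ℤ × ℤ) : ξ x ≤ step κ ξ x := by
  unfold step
  split_ifs <;> omega

/-- a blocked site -/
structure Blocked (ξ : ℤ × ℤ → ℕ) (c : ℤ × ℤ) : Prop where
  zero : ξ c = 0
  right : 2 ≤ ξ (c.1 + 1, c.2)
  left : 2 ≤ ξ (c.1 - 1, c.2)
  up : 2 ≤ ξ (c.1, c.2 + 1)

lemma Corner.blocked {ξ : ℤ × ℤ → ℕ} {c : ℤ × ℤ} (h : Corner ξ c) : Blocked ξ c :=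
  ⟨h.1, h.2.1.ge, h.2.2.1.ge, h.2.2.2.ge⟩

lemma Blocked.step {κ : ℕ} {ξ : ℤ × ℤ → ℕ} {c : ℤ × ℤ} (h : Blocked ξ c) :
    Blocked (step κ ξ) c := by
  refine ⟨?_, h.right.trans (step_ge _ _ _), h.left.trans (step_ge _ _ _),
    h.up.trans (step_ge _ _ _)⟩
  unfold Multi.step
  rw [if_neg, h.zero]
  rintro ⟨-, h2⟩
  rw [h.zero] at h2
  have h3 : count ξ c (0 + 1) ≤ 1 := by
    unfold count
    rw [Finset.card_le_one]
    intro y hy z hz
    have hr := h.right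
    have hl := h.left
    have hu := h.up
    simp only [nbrs, Finset.mem_filter, Finset.mem_insert, Finset.mem_singleton] at hy hz
    obtain ⟨hy1, hy2⟩ := hy
    obtain ⟨hz1, hz2⟩ := hz
    rcases hy1 with rfl | rfl | rfl | rfl
    · omega
    · omega
    · omega
    · rcases hz1 with rfl | rfl | rfl | rfl
      · omega
      · omega
      · omega
      · rfl
  omega

lemma count_three {ξ : ℤ × ℤ → ℕ} {n : ℤ} (hn : 1 ≤ n)
    (h : ∀ x : ℤ × ℤ, |x.1| ≤ n → |x.2| ≤ n → ξ x ≤ 2) (x : ℤ × ℤ) (h1 : |x.1| ≤ n)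
    (h2 : |x.2| ≤ n) (h3 : ¬ (|x.1| = n ∧ |x.2| = n)) : count ξ x 3 ≤ 1 := by
  unfold count
  rw [Finset.card_le_one]
  intro y hy z hz
  simp only [nbrs, Finset.mem_filter, Finset.mem_insert, Finset.mem_singleton] at hy hz
  obtain ⟨hy1, hy2⟩ := hy
  obtain ⟨hz1, hz2⟩ := hz
  have hy3 : ¬ (|y.1| ≤ n ∧ |y.2| ≤ n) := fun hh => by
    have := h y hh.1 hh.2
    omega
  have hz3 : ¬ (|z.1| ≤ n ∧ |z.2| ≤ n) := fun hh => by
    have := h z hh.1 hh.2
    omega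
  rw [abs_le] at h1 h2
  simp only [abs_le] at hy3 hz3
  rw [abs_eq (by omega), abs_eq (by omega)] at h3
  obtain ⟨a, b⟩ := x
  simp only at *
  rcases hy1 with rfl | rfl | rfl | rfl <;> rcases hz1 with rfl | rfl | rfl | rfl <;>
    simp only [Prod.mk.injEq] at * <;> omega

lemma inside {κ : ℕ} {ξ : ℤ × ℤ → ℕ} {n : ℤ} (hn : 1 ≤ n) (hg : Guarded ξ n)
    (h : ∀ x : ℤ × ℤ, |x.1| ≤ n → |x.2| ≤ n → ξ x ≤ 2) (t : ℕ) :
    (Blocked (evol κ ξ t) (n, n) ∧ Blocked (evol κ ξ t) (n, -n) ∧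
      Blocked (evol κ ξ t) (-n, n) ∧ Blocked (evol κ ξ t) (-n, -n)) ∧
    ∀ x : ℤ × ℤ, |x.1| ≤ n → |x.2| ≤ n → evol κ ξ t x ≤ 2 := by
  induction t with
  | zero =>
    exact ⟨⟨hg.1.blocked, hg.2.1.blocked, hg.2.2.1.blocked, hg.2.2.2.blocked⟩, h⟩
  | succ t ih =>
    obtain ⟨⟨i1, i2, i3, i4⟩, ih2⟩ := ih
    have he : evol κ ξ (t + 1) = step κ (evol κ ξ t) := by
      unfold evol
      rw [Function.iterate_succ_apply']
    rw [he]
    refine ⟨⟨i1.step, i2.step, i3.step, i4.step⟩, fun x hx1 hx2 => ?_⟩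
    by_cases hc : |x.1| = n ∧ |x.2| = n
    · have h0 : step κ (evol κ ξ t) x = 0 := by
        obtain ⟨a, b⟩ := x
        simp only at hc
        rw [abs_eq (by omega), abs_eq (by omega)] at hc
        rcases hc with ⟨rfl | rfl, rfl | rfl⟩
        · exact i1.step.zero
        · exact i2.step.zero
        · exact i3.step.zero
        · exact i4.step.zero
      omega
    · have hcount := count_three hn ih2 x hx1 hx2 hc
      have hle := ih2 x hx1 hx2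
      unfold step
      split_ifs with h3
      · rcases Nat.lt_or_ge (evol κ ξ t x) 2 with h4 | h4
        · omega
        · have h5 : evol κ ξ t x = 2 := by omega
          rw [h5] at h3
          have h6 : 2 ≤ count (evol κ ξ t) x 3 := h3.2
          omega
      · exact hle

/-- a guarded square without initial states at least three protects the origin -/
theorem origin_protected {κ : ℕ} {ξ : ℤ × ℤ → ℕ} {n : ℤ} (hn : 1 ≤ n) (hg : Guarded ξ n)
    (h : ∀ x : ℤ × ℤ, |x.1| ≤ n → |x.2| ≤ n → ξ x ≤ 2) (t : ℕ) : evol κ ξ t 0 ≤ 2 :=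
  (inside hn hg h t).2 0 (by simp; omega) (by simp; omega)

end Q294.Multi
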