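import Pool.Agent.Q294.Multi.Det

open MeasureTheory ProbabilityTheory Filter Topology
open scoped ENNReal

set_option linter.deprecated false

namespace Q294.Multi

/-- the corners of the square `[-n, n]²` -/
def corner (n : ℤ) : Fin 4 → ℤ × ℤ
  | 0 => (n, n)
  | 1 => (n, -n)
  | 2 => (-n, n)
  | 3 => (-n, -n)

/-- the sites of the pattern at `c` -/
def around (c : ℤ × ℤ) : Fin 4 → ℤ × ℤ
  | 0 => c
  | 1 => (c.1 + 1, c.2)
  | 2 => (c.1 - 1, c.2)
  | 3 => (c.1, c.2 + 1)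

/-- scale of the `m`-th square -/
def scl (m : ℕ) : ℤ := 3 * m + 3

/-- the sites of all patterns -/
def siteOf (i : ℕ × (Fin 4 × Fin 4)) : ℤ × ℤ := around (corner (scl i.1) i.2.1) i.2.2

/-- the states of the pattern -/
def val (j : Fin 4) : ℕ := if j = 0 then 0 else 2

lemma siteOf_injective : Function.Injective siteOf := by
  rintro ⟨m, k, j⟩ ⟨m', k', j'⟩ h
  unfold siteOf scl at h
  fin_cases k <;> fin_cases k' <;> fin_cases j <;> fin_cases j' <;>
    simp only [corner, around, Prod.mk.injEq, Fin.isValue, Fin.mk_one, Fin.zero_eta,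
      Fin.reduceFinMk, Fin.reduceEq, and_true, true_and, and_false, false_and] at h ⊢ <;>
    omega

lemma guarded_iff (ξ : ℤ × ℤ → ℕ) (m : ℕ) :
    Guarded ξ (scl m) ↔ ∀ i : Fin 4 × Fin 4, ξ (siteOf (m, i)) = val i.2 := by
  constructor
  · rintro ⟨⟨a1, a2, a3, a4⟩, ⟨b1, b2, b3, b4⟩, ⟨c1, c2, c3, c4⟩, ⟨d1, d2, d3, d4⟩⟩ ⟨k, j⟩
    fin_cases k <;> fin_cases j <;> simp [siteOf, corner, around, val, *]
  · intro h
    refine ⟨⟨h (0, 0), h (0, 1), h (0, 2), h (0, 3)⟩, ⟨h (1, 0), h (1, 1), h (1, 2), h (1, 3)⟩,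
      ⟨h (2, 0), h (2, 1), h (2, 2), h (2, 3)⟩, ⟨h (3, 0), h (3, 1), h (3, 2), h (3, 3)⟩⟩

/-- the pattern probability -/
noncomputable def qq (p : PMF ℕ) : ℝ≥0∞ := ∏ i : Fin 4 × Fin 4, p (val i.2)

lemma measurableSet_guarded (m : ℕ) : MeasurableSet {ξ : ℤ × ℤ → ℕ | Guarded ξ (scl m)} := by
  simp only [guarded_iff]
  have : {ξ : ℤ × ℤ → ℕ | ∀ i : Fin 4 × Fin 4, ξ (siteOf (m, i)) = val i.2} =
      ⋂ i : Fin 4 × Fin 4, (fun ξ : ℤ × ℤ → ℕ => ξ (siteOf (m, i))) ⁻¹' {val i.2} := by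
    ext ξ; simp
  rw [this]
  exact MeasurableSet.iInter fun i => measurable_pi_apply _ (measurableSet_singleton _)

lemma iInter_guarded (p : PMF ℕ) (s : Finset ℕ) :
    law p (⋂ m ∈ s, {ξ | Guarded ξ (scl m)}) = ∏ _m ∈ s, qq p := by
  set T : Finset (ℕ × (Fin 4 × Fin 4)) := s ×ˢ Finset.univ with hT
  have hinv : Function.LeftInverse (Function.invFun siteOf) siteOf :=
    Function.leftInverse_invFun siteOf_injective
  have hset : (⋂ m ∈ s, {ξ : ℤ × ℤ → ℕ | Guarded ξ (scl m)}) =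
      Set.pi ((T.image siteOf : Finset (ℤ × ℤ)) : Set (ℤ × ℤ))
        (fun y => {val (Function.invFun siteOf y).2.2}) := by
    ext ξ
    simp only [Set.mem_iInter, Set.mem_setOf_eq, guarded_iff, Set.mem_pi, Finset.coe_image,
      Set.mem_image, Set.mem_singleton_iff]
    constructor
    · rintro h y ⟨⟨m, i⟩, hi, rfl⟩
      rw [hinv]
      have : m ∈ s := by
        have hi' : (m, i) ∈ T := hi
        rw [hT, Finset.mem_product] at hi'
        exact hi'.1
      exact h m this i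
    · intro h m hm i
      have := h (siteOf (m, i)) ⟨(m, i), by simp [hT, hm], rfl⟩
      rwa [hinv] at this
  rw [hset]
  unfold law
  rw [Measure.infinitePi_pi]
  · rw [Finset.prod_image fun i _ j _ hij => siteOf_injective hij, hT, Finset.prod_product]
    refine Finset.prod_congr rfl fun m _ => ?_
    unfold qq
    refine Finset.prod_congr rfl fun i _ => ?_
    rw [hinv, PMF.toMeasure_apply_singleton _ _ (measurableSet_singleton _)]
  · intro i _
    exact measurableSet_singleton _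

lemma prob_guarded (p : PMF ℕ) (m : ℕ) : law p {ξ | Guarded ξ (scl m)} = qq p := by
  have := iInter_guarded p {m}
  simpa using this

lemma indep_guarded (p : PMF ℕ) :
    iIndepSet (fun m : ℕ => {ξ : ℤ × ℤ → ℕ | Guarded ξ (scl m)}) (law p) := by
  rw [iIndepSet_iff_meas_biInter measurableSet_guarded]
  intro s
  rw [iInter_guarded]
  exact Finset.prod_congr rfl fun m _ => (prob_guarded p m).symm

/-- no guarded square among the first `M` -/
lemma none_guarded (p : PMF ℕ) (M : ℕ) :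
    law p {ξ | ∀ m < M, ¬ Guarded ξ (scl m)} = (1 - qq p) ^ M := by
  have h1 : {ξ : ℤ × ℤ → ℕ | ∀ m < M, ¬ Guarded ξ (scl m)} =
      ⋂ m ∈ Finset.range M, {ξ | Guarded ξ (scl m)}ᶜ := by
    ext ξ; simp
  have hi : iIndep (fun m : ℕ => MeasurableSpace.generateFrom {{ξ | Guarded ξ (scl m)}}) (law p) :=
    indep_guarded p
  rw [h1, hi.meas_biInter]
  · rw [Finset.prod_congr rfl (g := fun _ => 1 - qq p)]
    · simp
    · intro m _
      rw [measure_compl (measurableSet_guarded m) (measure_ne_top _ _), prob_guarded]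
      simp
  · intro m _
    exact (MeasurableSpace.measurableSet_generateFrom (Set.mem_singleton _)).compl

/-- probability of a large state somewhere in the box -/
lemma big_in_box (p : PMF ℕ) (n : ℕ) :
    law p {ξ | ∃ x : ℤ × ℤ, |x.1| ≤ n ∧ |x.2| ≤ n ∧ 3 ≤ ξ x} ≤
      ((2 * n + 1) ^ 2 : ℕ) * p.toMeasure {i | 3 ≤ i} := by
  set B : Finset (ℤ × ℤ) := Finset.Icc (-(n : ℤ)) n ×ˢ Finset.Icc (-(n : ℤ)) n with hB
  have h1 : {ξ : ℤ × ℤ → ℕ | ∃ x : ℤ × ℤ, |x.1| ≤ n ∧ |x.2| ≤ n ∧ 3 ≤ ξ x} ⊆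
      ⋃ x ∈ B, {ξ | 3 ≤ ξ x} := by
    rintro ξ ⟨x, h1, h2, h3⟩
    simp only [Set.mem_iUnion]
    refine ⟨x, ?_, h3⟩
    rw [abs_le] at h1 h2
    simp [hB, h1, h2]
  refine (measure_mono h1).trans ((measure_biUnion_finset_le _ _).trans ?_)
  have h2 : ∀ x : ℤ × ℤ, law p {ξ | 3 ≤ ξ x} = p.toMeasure {i | 3 ≤ i} := by
    intro x
    have h3 : {ξ : ℤ × ℤ → ℕ | 3 ≤ ξ x} =
        Set.pi (({x} : Finset (ℤ × ℤ)) : Set (ℤ × ℤ)) (fun _ => {i | 3 ≤ i}) := by
      ext ξ; simp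
    rw [h3]
    unfold law
    rw [Measure.infinitePi_pi]
    · simp
    · intro i _
      exact MeasurableSet.of_discrete
  simp only [h2]
  rw [Finset.sum_const, nsmul_eq_mul]
  gcongr
  rw [hB, Finset.card_product]
  simp only [Int.card_Icc]
  rw [sq]
  gcongr <;> omega

/-- **The polluted environment.** -/
theorem top_unlikely (κ : ℕ) (p : PMF ℕ) (M : ℕ) :
    law p {ξ | ∃ t, 3 ≤ evol κ ξ t 0} ≤ (1 - qq p) ^ M +
      ((2 * (3 * M + 3) + 1) ^ 2 : ℕ) * p.toMeasure {i | 3 ≤ i} := by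
  have h1 : {ξ : ℤ × ℤ → ℕ | ∃ t, 3 ≤ evol κ ξ t 0} ⊆
      {ξ | ∀ m < M, ¬ Guarded ξ (scl m)} ∪
      {ξ | ∃ x : ℤ × ℤ, |x.1| ≤ (3 * M + 3 : ℕ) ∧ |x.2| ≤ (3 * M + 3 : ℕ) ∧ 3 ≤ ξ x} := by
    rintro ξ ⟨t, ht⟩
    by_contra hc
    rw [Set.mem_union, not_or] at hc
    obtain ⟨hc1, hc2⟩ := hc
    simp only [Set.mem_setOf_eq, not_forall, not_not] at hc1
    obtain ⟨m, hm, hg⟩ := hc1
    simp only [Set.mem_setOf_eq, not_exists, not_and, not_le] at hc2
    have := origin_protected (κ := κ) (n := scl m) (by unfold scl; omega) hg (fun x h1 h2 => by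
      have h3 : scl m ≤ ((3 * M + 3 : ℕ) : ℤ) := by
        unfold scl
        push_cast
        omega
      have := hc2 x (h1.trans h3) (h2.trans h3)
      omega) t
    omega
  refine (measure_mono h1).trans ((measure_union_le _ _).trans ?_)
  exact add_le_add (none_guarded p M).le (big_in_box p (3 * M + 3))

end Q294.Multi
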