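import Pool.Agent.Q294.Multi.Prob

open MeasureTheory ProbabilityTheory Filter Topology
open scoped ENNReal

set_option linter.deprecated false

namespace Q294.Multi

/-- for fixed densities of the states 0 and 2, a small density of the states at least 3 is
harmless -/
theorem uniform_bound (κ : ℕ) {r ε : ℝ} (hr : 0 < r) (hε : 0 < ε) :
    ∃ δ : ℝ, 0 < δ ∧ ∀ p : PMF ℕ, ENNReal.ofReal r ≤ p 0 → ENNReal.ofReal r ≤ p 2 →
      p.toMeasure {i | 3 ≤ i} ≤ ENNReal.ofReal δ →
      law p {ξ | ∃ t, 3 ≤ evol κ ξ t 0} ≤ ENNReal.ofReal ε := by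
  set R : ℝ≥0∞ := ENNReal.ofReal r with hR
  have hR0 : R ≠ 0 := by rw [hR]; simpa using hr
  have hlt : 1 - R ^ 16 < 1 := ENNReal.sub_lt_self (by simp) (by simp) (pow_ne_zero _ hR0)
  have ht := ENNReal.tendsto_pow_atTop_nhds_zero_of_lt_one hlt
  have hε2 : (0 : ℝ≥0∞) < ENNReal.ofReal (ε / 2) := by
    rw [ENNReal.ofReal_pos]; linarith
  obtain ⟨M, hM⟩ := (ht.eventually (gt_mem_nhds hε2)).exists
  set K : ℕ := (2 * (3 * M + 3) + 1) ^ 2 with hK
  have hKpos : (0 : ℝ) < K := by
    rw [hK]; positivity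
  refine ⟨ε / 2 / K, by positivity, fun p h0 h2 h3 => ?_⟩
  refine (top_unlikely κ p M).trans ?_
  have hq : R ^ 16 ≤ qq p := by
    unfold qq
    have : R ^ 16 = ∏ _i : Fin 4 × Fin 4, R := by
      simp
    rw [this]
    refine Finset.prod_le_prod' fun i _ => ?_
    unfold val
    split_ifs
    · exact h0
    · exact h2
  have h4 : (1 - qq p) ^ M ≤ ENNReal.ofReal (ε / 2) := by
    refine le_trans ?_ hM.le
    gcongr
  have h5 : (K : ℝ≥0∞) * p.toMeasure {i | 3 ≤ i} ≤ ENNReal.ofReal (ε / 2) := by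
    calc (K : ℝ≥0∞) * p.toMeasure {i | 3 ≤ i} ≤ K * ENNReal.ofReal (ε / 2 / K) := by gcongr
      _ = ENNReal.ofReal K * ENNReal.ofReal (ε / 2 / K) := by
        rw [ENNReal.ofReal_natCast]
      _ = ENNReal.ofReal (K * (ε / 2 / K)) := by
        rw [← ENNReal.ofReal_mul hKpos.le]
      _ = ENNReal.ofReal (ε / 2) := by
        congr 1
        field_simp
  calc (1 - qq p) ^ M + (K : ℝ≥0∞) * p.toMeasure {i | 3 ≤ i}
      ≤ ENNReal.ofReal (ε / 2) + ENNReal.ofReal (ε / 2) := add_le_add h4 h5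
    _ = ENNReal.ofReal ε := by
      rw [← ENNReal.ofReal_add (by linarith) (by linarith)]
      congr 1
      ring

/-- a rapidly decreasing chain -/
lemma chain (γ : ℕ → ℝ) {s c N : ℝ} (hs : 0 < s) (hc : 0 < c) (hN : 0 < N) :
    ∃ b : ℕ → ℝ, b 0 = s ∧ (∀ i, 0 < b i) ∧
      ∀ i, b (i + 1) ≤ c ∧ b (i + 1) ≤ b i ^ γ i / N := by
  let b : ℕ → ℝ := fun i => Nat.rec s (fun j x => min c (x ^ γ j / N)) i
  have hb : ∀ i, b (i + 1) = min c (b i ^ γ i / N) := fun i => rfl
  have hpos : ∀ i, 0 < b i := by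
    intro i
    induction i with
    | zero => exact hs
    | succ i ih =>
      rw [hb]
      exact lt_min hc (div_pos (Real.rpow_pos_of_pos ih _) hN)
  exact ⟨b, rfl, hpos, fun i => ⟨(hb i).trans_le (min_le_left _ _),
    (hb i).trans_le (min_le_right _ _)⟩⟩

/-- one parameter vector -/
lemma exists_param (k : ℕ) (γ : ℕ → ℝ) (n : ℕ) :
    ∃ p : PMF ℕ, IsParam (k + 3) p ∧ (p 1).toReal ≤ 1 / (n + 1) ∧
      (∀ i, 2 ≤ i → i ≤ k + 3 → (p i).toReal / (p (i - 1)).toReal ^ γ i ≤ 1 / (n + 1)) ∧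
      law p {ξ | ∃ t, 3 ≤ evol (k + 3) ξ t 0} ≤ ENNReal.ofReal (1 / (n + 1)) := by
  have hn : (0 : ℝ) < (n : ℝ) + 1 := by positivity
  set p1 : ℝ := 1 / (8 * (n + 1)) with hp1
  have hp1pos : 0 < p1 := by positivity
  have hp1le : p1 ≤ 1 / 8 := by
    rw [hp1, div_le_div_iff₀ (by positivity) (by norm_num)]
    have : (0 : ℝ) ≤ n := Nat.cast_nonneg n
    linarith
  have hp1le' : p1 ≤ 1 / (n + 1) := by
    rw [hp1, div_le_div_iff₀ (by positivity) hn]
    linarith
  set p2 : ℝ := min (1 / 8) (p1 ^ γ 2 / (n + 1)) with hp2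
  have hp2pos : 0 < p2 := lt_min (by norm_num) (div_pos (Real.rpow_pos_of_pos hp1pos _) hn)
  obtain ⟨δ, hδ, hbound⟩ := uniform_bound (k + 3) (r := p2) (ε := 1 / (n + 1)) hp2pos
    (by positivity)
  set c : ℝ := min δ (1 / 8) / (k + 1) with hc
  have hcpos : 0 < c := by
    rw [hc]
    have : 0 < min δ (1 / 8) := lt_min hδ (by norm_num)
    positivity
  obtain ⟨b, hb0, hbpos, hb⟩ := chain (fun i => γ (i + 3)) hp2pos hcpos hn
  set S : ℝ := ∑ j ∈ Finset.range (k + 1), b (j + 1) with hS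
  have hS0 : 0 ≤ S := Finset.sum_nonneg fun j _ => (hbpos _).le
  have hSle : S ≤ min δ (1 / 8) := by
    calc S ≤ ∑ j ∈ Finset.range (k + 1), c := Finset.sum_le_sum fun j _ => (hb j).1
      _ = (k + 1) * c := by simp
      _ = min δ (1 / 8) := by
        rw [hc]; field_simp
  have hp2le : p2 ≤ 1 / 8 := min_le_left _ _
  set f : ℕ → ℝ := fun i => if i = 0 then 1 - p1 - p2 - S else if i = 1 then p1 else
    if i ≤ k + 3 then b (i - 2) else 0 with hf
  have f0 : f 0 = 1 - p1 - p2 - S := by simp [hf]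
  have f1 : f 1 = p1 := by simp [hf]
  have f2 : ∀ j, j ≤ k + 1 → f (j + 2) = b j := by
    intro j hj
    simp only [hf]
    rw [if_neg (by omega), if_neg (by omega), if_pos (by omega)]
    rfl
  have fbig : ∀ i, k + 3 < i → f i = 0 := by
    intro i hi
    simp only [hf]
    rw [if_neg (by omega), if_neg (by omega), if_neg (by omega)]
  have hf0pos : 1 / 2 ≤ f 0 := by
    rw [f0]
    have := hSle.trans (min_le_right _ _)
    linarith
  have fpos : ∀ i, i ≤ k + 3 → 0 < f i := by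
    intro i hi
    rcases Nat.lt_or_ge i 2 with h | h
    · interval_cases i
      · linarith
      · rw [f1]; exact hp1pos
    · obtain ⟨j, rfl⟩ : ∃ j, i = j + 2 := ⟨i - 2, by omega⟩
      rw [f2 j (by omega)]
      exact hbpos j
  have hsum : ∑ i ∈ Finset.range (k + 3 + 1), f i = 1 := by
    rw [Finset.sum_range_succ', Finset.sum_range_succ']
    have h1 : ∑ j ∈ Finset.range (k + 2), f (j + 1 + 1) = ∑ j ∈ Finset.range (k + 2), b j := by
      refine Finset.sum_congr rfl fun j hj => ?_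
      rw [Finset.mem_range] at hj
      exact f2 j (by omega)
    rw [h1, Finset.sum_range_succ', hb0, f0, zero_add, f1]
    ring
  have hsumE : ∑ i ∈ Finset.range (k + 3 + 1), ENNReal.ofReal (f i) = 1 := by
    rw [← ENNReal.ofReal_sum_of_nonneg, hsum]
    · simp
    · intro i hi
      rw [Finset.mem_range] at hi
      exact (fpos i (by omega)).le
  let p : PMF ℕ := PMF.ofFinset (fun i => ENNReal.ofReal (f i)) (Finset.range (k + 3 + 1)) hsumE
    (by
      intro i hi
      rw [Finset.mem_range, not_lt] at hi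
      rw [fbig i (by omega)]; simp)
  have hp : ∀ i, p i = ENNReal.ofReal (f i) := fun i => rfl
  have hpr : ∀ i, i ≤ k + 3 → (p i).toReal = f i := by
    intro i hi
    rw [hp, ENNReal.toReal_ofReal (fpos i hi).le]
  refine ⟨p, ⟨?_, ?_⟩, ?_, ?_, ?_⟩
  · intro i hi
    rw [hp]
    simpa using fpos i hi
  · intro i hi
    rw [hp, fbig i hi]; simp
  · rw [hpr 1 (by omega), f1]
    exact hp1le'
  · intro i h2 hi
    rw [hpr i hi, hpr (i - 1) (by omega), div_le_div_iff₀
      (Real.rpow_pos_of_pos (fpos _ (by omega)) _) hn]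
    rw [one_mul, ← le_div_iff₀ hn]
    rcases Nat.eq_or_lt_of_le h2 with h3 | h3
    · subst h3
      have e1 : f 2 = p2 := by rw [f2 0 (by omega), hb0]
      rw [e1, show 2 - 1 = 1 from rfl, f1]
      exact min_le_right _ _
    · obtain ⟨j, rfl⟩ : ∃ j, i = j + 3 := ⟨i - 3, by omega⟩
      have e1 : f (j + 3) = b (j + 1) := f2 (j + 1) (by omega)
      have e2 : f (j + 3 - 1) = b j := f2 j (by omega)
      rw [e1, e2]
      exact (hb j).2
  · refine hbound p ?_ ?_ ?_
    · rw [hp]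
      apply ENNReal.ofReal_le_ofReal
      linarith
    · rw [hp]
      apply ENNReal.ofReal_le_ofReal
      rw [f2 0 (by omega), hb0]
    · have h1 : p.toMeasure {i | 3 ≤ i} ≤ ENNReal.ofReal S := by
        rw [PMF.toMeasure_apply_eq_tsum,
          tsum_eq_sum (s := (Finset.range (k + 1)).image fun j => j + 3)]
        · rw [Finset.sum_image (by intro a _ b _ h; simpa using h), hS,
            ENNReal.ofReal_sum_of_nonneg (fun j _ => (hbpos _).le)]
          refine Finset.sum_le_sum fun j hj => ?_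
          rw [Finset.mem_range] at hj
          rw [Set.indicator_of_mem (by simp), hp]
          have e1 : f (j + 3) = b (j + 1) := f2 (j + 1) (by omega)
          rw [e1]
        · intro i hi
          by_cases h3 : 3 ≤ i
          · rw [Set.indicator_of_mem (by simpa using h3), hp]
            have : k + 3 < i := by
              by_contra hc
              apply hi
              simp only [Finset.mem_image, Finset.mem_range]
              exact ⟨i - 3, by omega, by omega⟩
            rw [fbig i this]; simp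
          · rw [Set.indicator_of_notMem (by simpa using h3)]
      exact h1.trans (ENNReal.ofReal_le_ofReal (hSle.trans (min_le_left _ _)))

theorem exists_seq {κ : ℕ} (hκ : 3 ≤ κ) (γ : ℕ → ℝ) :
    ∃ p : ℕ → PMF ℕ, (∀ n, IsParam κ (p n)) ∧
      Tendsto (fun n => (p n 1).toReal) atTop (𝓝 0) ∧
      (∀ i, 2 ≤ i → i ≤ κ →
        Tendsto (fun n => (p n i).toReal / (p n (i - 1)).toReal ^ γ i) atTop (𝓝 0)) ∧
      Tendsto (fun n => law (p n) {ξ | ∃ t, 3 ≤ evol κ ξ t 0}) atTop (𝓝 0) := by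
  obtain ⟨k, rfl⟩ : ∃ k, κ = k + 3 := ⟨κ - 3, by omega⟩
  choose p h1 h2 h3 h4 using exists_param k γ
  have hlim : Tendsto (fun n : ℕ => 1 / ((n : ℝ) + 1)) atTop (𝓝 0) :=
    tendsto_one_div_add_atTop_nhds_zero_nat
  refine ⟨p, h1, ?_, ?_, ?_⟩
  · exact squeeze_zero (fun n => ENNReal.toReal_nonneg) h2 hlim
  · intro i hi2 hi
    refine squeeze_zero (fun n => ?_) (fun n => h3 n i hi2 hi) hlim
    exact div_nonneg ENNReal.toReal_nonneg (Real.rpow_nonneg ENNReal.toReal_nonneg _)
  · have : Tendsto (fun n : ℕ => ENNReal.ofReal (1 / ((n : ℝ) + 1))) atTop (𝓝 0) := by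
      have := ENNReal.tendsto_ofReal hlim
      simpa using this
    exact tendsto_of_tendsto_of_tendsto_of_le_of_le tendsto_const_nhds this
      (fun _ => zero_le) h4

end Q294.Multi
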